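import Pool.Agent.Helper32.NO.Defs

/-!
# The carried data in the quotient by a central `2`-subgroup
-/

set_option autoImplicit false
open scoped BigOperators MonoidAlgebra
open Classical

namespace Pool.Agent.Helper28.NO

open Pool.Agent.Helper36.NB Pool.Agent.Helper44.S3 Pool.Agent.Helper32.ND
open Pool.Agent.Helper32.NO

section pr

variable (R : Type) [CommRing R] {G : Type} [Group G] (Z : Subgroup G) [Z.Normal]

theorem prR_single (g : G) (r : R) :
    prR R Z (MonoidAlgebra.single g r) = MonoidAlgebra.single (g : G ⧸ Z) r := by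
  change MonoidAlgebra.mapDomain (QuotientGroup.mk' Z) (MonoidAlgebra.single g r) = _
  rw [MonoidAlgebra.mapDomain_single]
  rfl

theorem prR_el (g : G) : prR R Z (el R g) = el R (g : G ⧸ Z) := prR_single R Z g 1

theorem prR_surj : Function.Surjective (prR R Z) := by
  intro y
  induction y using MonoidAlgebra.induction_linear with
  | zero => exact ⟨0, map_zero _⟩
  | add x y hx hy =>
    obtain ⟨x', rfl⟩ := hx
    obtain ⟨y', rfl⟩ := hy
    exact ⟨x' + y', map_add _ _ _⟩
  | single g r =>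
    obtain ⟨g', rfl⟩ := QuotientGroup.mk_surjective g
    exact ⟨MonoidAlgebra.single g' r, prR_single R Z g' r⟩

theorem prR_inv (x : MonoidAlgebra R G) : prR R Z (inv' x) = inv' (prR R Z x) := by
  induction x using MonoidAlgebra.induction_linear with
  | zero => rw [inv'_zero, map_zero, inv'_zero]
  | add x y hx hy => rw [inv'_add, map_add, map_add, hx, hy, inv'_add]
  | single g r =>
    rw [prR_single]
    unfold inv'
    rw [MonoidAlgebra.mapDomain_single, MonoidAlgebra.mapDomain_single, prR_single]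
    rfl

theorem prR_psi (t : G) (x : MonoidAlgebra R G) :
    prR R Z (psi t x) = psi (t : G ⧸ Z) (prR R Z x) := by
  rw [psi_apply, psi_apply, map_mul, map_mul, prR_el, prR_el, prR_inv, QuotientGroup.mk_inv]

end pr

theorem prR_toK (O : ValuationSubring ℂ) {G : Type} [Group G] (Z : Subgroup G) [Z.Normal]
    (x : MonoidAlgebra O G) :
    prR (resK O) Z (toK O G x) = toK O (G ⧸ Z) (pr O Z x) := by
  induction x using MonoidAlgebra.induction_linear with
  | zero => rw [map_zero, map_zero, map_zero, map_zero]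
  | add x y hx hy => rw [map_add, map_add, map_add, map_add, hx, hy]
  | single g r =>
    have h1 : toK O G (MonoidAlgebra.single g r) =
        MonoidAlgebra.single g (IsLocalRing.residue O r) := by simp [toK]
    have h3 : toK O (G ⧸ Z) (MonoidAlgebra.single (g : G ⧸ Z) r) =
        MonoidAlgebra.single (g : G ⧸ Z) (IsLocalRing.residue O r) := by simp [toK]
    rw [h1, prR_single, pr_single, h3]

/-- A central `2`-element acts as the identity on the simple module. -/
theorem rho_central {k : Type} [Field k] [CharP k 2] {G : Type} [Group G] (Z : Subgroup G)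
    (hZ : ∀ z ∈ Z, ∀ g, z * g = g * z) (hZ2 : IsPGroup 2 Z) {b : MonoidAlgebra k G}
    (S : SimpleQuot b) (z : G) (hz : z ∈ Z) : S.ρ (el k z) = 1 := by
  have hc : ∀ a : MonoidAlgebra k G, el k z * a = a * el k z := by
    intro a
    induction a using MonoidAlgebra.induction_linear with
    | zero => rw [mul_zero, zero_mul]
    | add x y hx hy => rw [mul_add, add_mul, hx, hy]
    | single g r =>
      unfold el
      rw [MonoidAlgebra.single_mul_single, MonoidAlgebra.single_mul_single, hZ z hz g, one_mul,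
        mul_one]
  have hM : ∀ A : Matrix (Fin S.n) (Fin S.n) k, S.ρ (el k z) * A = A * S.ρ (el k z) := by
    intro A
    obtain ⟨a, rfl⟩ := S.surj A
    rw [← map_mul, hc, map_mul]
  obtain ⟨c, hcM⟩ := Matrix.mem_range_scalar_of_commute_single (M := S.ρ (el k z))
    (fun i j _ => (hM _).symm)
  obtain ⟨m, hm⟩ := hZ2 ⟨z, hz⟩
  have hz' : z ^ 2 ^ m = 1 := by
    have := congrArg Subtype.val hm
    simpa using this
  have hpow : ∀ l : ℕ, el k z ^ l = el k (z ^ l) := by
    intro l
    induction l with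
    | zero => rw [pow_zero, pow_zero, el_one]
    | succ l ih => rw [pow_succ, pow_succ, ih, el_mul]
  have h1 : (S.ρ (el k z)) ^ 2 ^ m = 1 := by
    rw [← map_pow, hpow, hz', el_one, map_one]
  have h2 : Matrix.scalar (Fin S.n) (c ^ 2 ^ m) = 1 := by
    rw [map_pow, hcM, h1]
  have h3 : c ^ 2 ^ m = 1 := by
    have h4 := congrFun (congrFun h2 ⟨0, S.pos⟩) ⟨0, S.pos⟩
    simpa using h4
  have h4 : (c - 1) ^ 2 ^ m = 0 := by
    rw [sub_pow_char_pow, h3, one_pow, sub_self]
  have h5 : c = 1 := sub_eq_zero.1 ((pow_eq_zero_iff (pow_pos two_pos m).ne').1 h4)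
  rw [← hcM, h5, map_one]

section quot

variable {k : Type} [Field k] [CharP k 2] {G : Type} [Group G] (Z : Subgroup G) [Z.Normal]
  (hZ : ∀ z ∈ Z, ∀ g, z * g = g * z) (hZ2 : IsPGroup 2 Z) {b : MonoidAlgebra k G}
  (S : SimpleQuot b)

/-- The representation of `G/Z`. -/
noncomputable def quotHom : G ⧸ Z →* Matrix (Fin S.n) (Fin S.n) k :=
  QuotientGroup.lift Z
    { toFun := fun g => S.ρ (el k g)
      map_one' := by rw [el_one, map_one]
      map_mul' := fun g h => by rw [el_mul, map_mul] }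
    (fun z hz => rho_central Z hZ hZ2 S z hz)

theorem quotHom_mk (g : G) : quotHom Z hZ hZ2 S (g : G ⧸ Z) = S.ρ (el k g) := rfl

/-- The homomorphism of `k[G/Z]`. -/
noncomputable def quotAlg : MonoidAlgebra k (G ⧸ Z) →ₐ[k] Matrix (Fin S.n) (Fin S.n) k :=
  MonoidAlgebra.lift k _ (G ⧸ Z) (quotHom Z hZ hZ2 S)

theorem quotAlg_pr (x : MonoidAlgebra k G) : quotAlg Z hZ hZ2 S (prR k Z x) = S.ρ x := by
  induction x using MonoidAlgebra.induction_linear with
  | zero => rw [map_zero, map_zero, map_zero]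
  | add x y hx hy => rw [map_add, map_add, map_add, hx, hy]
  | single g r =>
    rw [prR_single]
    unfold quotAlg
    rw [MonoidAlgebra.lift_single, quotHom_mk]
    have h : (MonoidAlgebra.single g r : MonoidAlgebra k G) = r • el k g := by
      unfold el
      rw [MonoidAlgebra.smul_single, smul_eq_mul, mul_one]
    rw [h, map_smul]

/-- The semisimple quotient of the block in `G/Z`. -/
noncomputable def quotS (b' : MonoidAlgebra k (G ⧸ Z)) (hb : prR k Z b = b') : SimpleQuot b' where
  n := S.n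
  ρ := quotAlg Z hZ hZ2 S
  pos := S.pos
  surj := fun A => by
    obtain ⟨a, rfl⟩ := S.surj A
    exact ⟨prR k Z a, quotAlg_pr Z hZ hZ2 S a⟩
  one := by rw [← hb, quotAlg_pr, S.one]
  nil := fun a ha => by
    obtain ⟨a', rfl⟩ := prR_surj k Z a
    rw [quotAlg_pr] at ha
    have h := (S.nil a' ha).map (prR k Z)
    rwa [map_mul, hb] at h

end quot

variable {O : ValuationSubring ℂ} {G : Type} [Group G] [Fintype G]

/-- **P5a.** the quotient by a central `2`-subgroup `Z ≤ D` -/
theorem lev_quot (h2 : (2 : O) ∈ IsLocalRing.maximalIdeal O) {D : Subgroup G} {t : G}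
    {e : MonoidAlgebra O G} {S : SimpleQuot (toK O G e)} {q : MonoidAlgebra (resK O) G}
    (hL : Lev O D t e S q) (Z : Subgroup G) [Z.Normal] (hZ : ∀ z ∈ Z, ∀ g, z * g = g * z)
    (hZD : Z ≤ D) (hloc : LocK (D.map (QuotientGroup.mk' Z)) (prR (resK O) Z q)) :
    ∃ S1 : SimpleQuot (toK O (G ⧸ Z) (pr O Z e)),
      (∀ x : MonoidAlgebra O G, (S1.ρ (toK O (G ⧸ Z) (pr O Z x))).rank =
        (S.ρ (toK O G x)).rank) ∧
      Lev O (D.map (QuotientGroup.mk' Z)) (t : G ⧸ Z) (pr O Z e) S1 (prR (resK O) Z q) := by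
  have : CharP (resK O) 2 := resK_charP O h2
  have hZ2 : IsPGroup 2 Z := hL.hD.to_le hZD
  set S1 := quotS Z hZ hZ2 S (toK O (G ⧸ Z) (pr O Z e)) (prR_toK O Z e) with hS1
  have hρ : ∀ x : MonoidAlgebra (resK O) G, S1.ρ (prR (resK O) Z x) = S.ρ x :=
    fun x => quotAlg_pr Z hZ hZ2 S x
  refine ⟨S1, fun x => ?_, ?_⟩
  · refine (congrArg (fun y => (S1.ρ y).rank) (prR_toK O Z x).symm).trans ?_
    exact congrArg Matrix.rank (hρ (toK O G x))
  · refine ⟨?_, ?_, ?_, ?_, ?_, ?_, ?_, ?_, ?_, ?_, ?_, ?_, ?_, hloc⟩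
    · rw [← map_mul, hL.ee]
    · intro a
      obtain ⟨a', rfl⟩ := pr_surj O Z a
      rw [← map_mul, ← map_mul, hL.ec]
    · rw [← pr_inv, hL.er]
    · exact hL.hD.map _
    · rintro _ ⟨u, hu, rfl⟩
      exact ⟨t⁻¹ * u * t, hL.tD u hu, rfl⟩
    · exact ⟨t * t, hL.tt, rfl⟩
    · rw [mem_map_mk Z D hZD]
      exact hL.tn
    · have h1 := hL.card
      rw [pr_coeff_one O h2 e hL.ee hL.ec Z hZ2]
      have hZ0 : (Nat.card Z : ℂ) ≠ 0 := Nat.cast_ne_zero.2 Nat.card_pos.ne'
      have hcard : Nat.card D = Nat.card (D.map (QuotientGroup.mk' Z)) * Nat.card Z := by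
        have h3 := card_pull Z (fun w : G ⧸ Z => w ∈ D.map (QuotientGroup.mk' Z))
        have h4 : Nat.card {g : G // (g : G ⧸ Z) ∈ D.map (QuotientGroup.mk' Z)} = Nat.card D :=
          Nat.card_congr (Equiv.subtypeEquivRight fun g => mem_map_mk Z D hZD g)
        rw [h4] at h3
        rw [h3, mul_comm]
      apply mul_right_cancel₀ hZ0
      rw [Subgroup.card_eq_card_quotient_mul_card_subgroup Z, hcard] at h1
      push_cast at h1
      calc (Nat.card (G ⧸ Z) : ℂ) * (e.coeff 1 : ℂ) * (Nat.card Z : ℂ) =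
          (Nat.card (G ⧸ Z) : ℂ) * (Nat.card Z : ℂ) * (e.coeff 1 : ℂ) := by ring
        _ = (S.n : ℂ) ^ 2 * ((Nat.card (D.map (QuotientGroup.mk' Z)) : ℂ) * (Nat.card Z : ℂ)) := h1
        _ = (S1.n : ℂ) ^ 2 * (Nat.card (D.map (QuotientGroup.mk' Z)) : ℂ) * (Nat.card Z : ℂ) := by
          rw [← mul_assoc]
          rfl
    · rw [← map_mul, hL.qq]
    · rw [← prR_toK, ← map_mul, hL.qe]
    · rintro _ ⟨u, hu, rfl⟩
      have h1 := congrArg (prR (resK O) Z) (hL.qD u hu)
      rw [map_mul, map_mul, prR_el] at h1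
      exact h1
    · rw [← prR_psi, hL.qt]
    · intro h
      apply hL.lam
      rw [SimpleQuot.lam_apply] at h ⊢
      rw [← h]
      exact congrArg Matrix.trace (hρ q).symm

end Pool.Agent.Helper28.NO
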