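import Pool.Agent.Helper28.NO.Wsum

/-!
# The total identity in terms of the weighted sums
-/

set_option autoImplicit false
open scoped BigOperators MonoidAlgebra
open Classical

namespace Pool.Agent.Helper28.NO

open Pool.Agent.Helper36.NB Pool.Agent.Helper44.S3 Pool.Agent.Helper32.ND
open Pool.Agent.Helper32.NO

variable {O : ValuationSubring ℂ} {G : Type} [Group G] [Fintype G]

theorem pim_sum (j : MonoidAlgebra O G) (g : G) :
    pim O j g = ∑ h : G, (j.coeff (h⁻¹ * g⁻¹ * h) : ℂ) := by
  obtain ⟨I⟩ := exists_irrData G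
  rw [pim_eq j I]
  refine (sum_chi_mul I (el ℂ g) (toC O G j)).trans ?_
  refine Finset.sum_congr rfl fun h _ => ?_
  rw [← el_mul, el_mul_coeff, toC_apply]
  congr 2
  group

/-- The number of square roots of an element of odd order. -/
theorem sqrt_odd (s : G) (hs : Odd (orderOf s)) :
    wP (fun _ : G => 1) (fun v s => v * v = s) s =
      wP (fun v : G => if v * v = 1 then 1 else 0) (fun v s => v * s = s * v) s := by
  obtain ⟨k, hk⟩ := hs
  set r : G := s ^ (k + 1) with hr
  have hrr : r * r = s := by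
    rw [hr, ← pow_add]
    have h1 : k + 1 + (k + 1) = orderOf s + 1 := by omega
    rw [h1, pow_succ, pow_orderOf_eq_one, one_mul]
  have hcomm : ∀ u : G, u * s = s * u → u * r = r * u := fun u hu =>
    ((show Commute u s from hu).pow_right (k + 1)).eq
  unfold wP
  refine Fintype.sum_bijective (fun v => r⁻¹ * v) (Group.mulLeft_bijective _) _ _ fun v => ?_
  have hiff : v * v = s ↔ (r⁻¹ * v * s = s * (r⁻¹ * v) ∧ r⁻¹ * v * (r⁻¹ * v) = 1) := by
    constructor
    · intro h
      have hvs : v * s = s * v := by rw [← h, mul_assoc]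
      have hvr := hcomm v hvs
      have hrs : r⁻¹ * s = s * r⁻¹ := by
        have h3 : r * s = s * r := by rw [hr, ← pow_succ, ← pow_succ']
        calc r⁻¹ * s = r⁻¹ * (s * r) * r⁻¹ := by group
          _ = r⁻¹ * (r * s) * r⁻¹ := by rw [h3]
          _ = s * r⁻¹ := by group
      constructor
      · calc r⁻¹ * v * s = r⁻¹ * (v * s) := by group
          _ = r⁻¹ * (s * v) := by rw [hvs]
          _ = (r⁻¹ * s) * v := by group
          _ = s * (r⁻¹ * v) := by rw [hrs]; group
      · calc r⁻¹ * v * (r⁻¹ * v) = r⁻¹ * (v * r⁻¹) * v := by group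
          _ = r⁻¹ * (r⁻¹ * (r * v) * r⁻¹) * v := by group
          _ = r⁻¹ * (r⁻¹ * (v * r) * r⁻¹) * v := by rw [hvr]
          _ = (r * r)⁻¹ * (v * v) := by group
          _ = 1 := by rw [hrr, h, inv_mul_cancel]
    · rintro ⟨h1, h2⟩
      have h3 := hcomm _ h1
      calc v * v = r * ((r⁻¹ * v) * r) * (r⁻¹ * v) := by group
        _ = r * (r * (r⁻¹ * v)) * (r⁻¹ * v) := by rw [h3]
        _ = (r * r) * (r⁻¹ * v * (r⁻¹ * v)) := by group
        _ = s := by rw [hrr, h2, mul_one]
  by_cases h : v * v = s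
  · rw [if_pos h, if_pos (hiff.1 h).1]
    exact (if_pos (hiff.1 h).2).symm
  · rw [if_neg h]
    by_cases h1 : r⁻¹ * v * s = s * (r⁻¹ * v)
    · rw [if_pos h1]
      exact (if_neg (fun h2 => h (hiff.2 ⟨h1, h2⟩))).symm
    · rw [if_neg h1]

/-- The total identity in terms of `wsum`, for an idempotent. -/
theorem total_idem (h2 : (2 : O) ∈ IsLocalRing.maximalIdeal O) (j : MonoidAlgebra O G)
    (hj : j * j = j) :
    (∑ g : G, pim O j (g * g)) / (Nat.card G : ℂ) =
      wsum O (fun v : G => if v * v = 1 then 1 else 0) j := by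
  have hG : (Nat.card G : ℂ) ≠ 0 := Nat.cast_ne_zero.2 Nat.card_pos.ne'
  have h1 : ∑ g : G, pim O j (g * g) = (Nat.card G : ℂ) * ∑ g : G, (j.coeff (g * g) : ℂ) := by
    rw [Finset.sum_congr rfl fun g _ => pim_sum j (g * g), Finset.sum_comm]
    have h3 : ∀ h : G, ∑ g : G, (j.coeff (h⁻¹ * (g * g)⁻¹ * h) : ℂ) =
        ∑ g : G, (j.coeff (g * g) : ℂ) := by
      intro h
      refine Fintype.sum_bijective (fun g => h⁻¹ * g⁻¹ * h) ?_ _ _ fun g => ?_
      · refine ⟨fun a b hab => ?_, fun y => ⟨h * y⁻¹ * h⁻¹, ?_⟩⟩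
        · have h5 : h⁻¹ * a⁻¹ * h = h⁻¹ * b⁻¹ * h := hab
          exact inv_injective (mul_left_cancel (mul_right_cancel h5))
        · change h⁻¹ * (h * y⁻¹ * h⁻¹)⁻¹ * h = y
          group
      · congr 2
        group
    rw [Finset.sum_congr rfl fun h _ => h3 h, Finset.sum_const, Finset.card_univ, nsmul_eq_mul,
      Nat.card_eq_fintype_card]
  rw [h1, mul_div_cancel_left₀ _ hG]
  have h3 : ∑ g : G, (j.coeff (g * g) : ℂ) =
      ∑ s : G, (j.coeff s : ℂ) * (wP (fun _ : G => 1) (fun v s => v * v = s) s : ℂ) := by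
    have h5 : ∀ s : G, (j.coeff s : ℂ) * (wP (fun _ : G => 1) (fun v s => v * v = s) s : ℂ) =
        ∑ v : G, if v * v = s then (j.coeff s : ℂ) else 0 := by
      intro s
      unfold wP
      push_cast
      rw [Finset.mul_sum]
      refine Finset.sum_congr rfl fun v _ => ?_
      by_cases h : v * v = s
      · rw [if_pos h, if_pos h, mul_one]
      · rw [if_neg h, if_neg h, mul_zero]
    rw [Finset.sum_congr rfl fun s _ => h5 s, Finset.sum_comm]
    refine Finset.sum_congr rfl fun v _ => ?_
    rw [Finset.sum_ite_eq Finset.univ (v * v), if_pos (Finset.mem_univ _)]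
  rw [h3]
  have hR : wsum O (fun v : G => if v * v = 1 then 1 else 0) j =
      ∑ s : G, (j.coeff s : ℂ) * (wP (fun v : G => if v * v = 1 then 1 else 0)
        (fun v s => v * s = s * v) s : ℂ) := rfl
  have hconj : ∀ g a b : G, (g * a * g⁻¹) * (g * b * g⁻¹) = g * (a * b) * g⁻¹ := by
    intro g a b
    group
  have hcl : ∀ g a b : G, g * a * g⁻¹ = g * b * g⁻¹ ↔ a = b := by
    intro g a b
    constructor
    · intro h
      exact mul_left_cancel (mul_right_cancel h)
    · intro h
      rw [h]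
  have hw : ClassFun (fun v : G => if v * v = 1 then 1 else 0) := by
    intro g v
    have h5 : (g * v * g⁻¹) * (g * v * g⁻¹) = 1 ↔ v * v = 1 := by
      rw [hconj]
      have h6 := hcl g (v * v) 1
      rw [mul_one, mul_inv_cancel] at h6
      exact h6
    by_cases h : v * v = 1
    · change (if _ then 1 else 0) = (if _ then 1 else 0)
      rw [if_pos h, if_pos (h5.2 h)]
    · change (if _ then 1 else 0) = (if _ then 1 else 0)
      rw [if_neg h, if_neg (fun h' => h (h5.1 h'))]
  rw [hR, sum_odd h2 j hj _ (fun g s => by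
      rw [wP_class (fun _ => 1) (fun _ _ => rfl) _ (fun g v s => by
        rw [hconj]
        exact hcl g _ _) g s]),
    sum_odd h2 j hj _ (fun g s => by
      rw [wP_class _ hw _ (fun g v s => by
        rw [hconj, hconj]
        exact hcl g _ _) g s])]
  refine Finset.sum_congr rfl fun s hs => ?_
  rw [Finset.mem_filter] at hs
  rw [sqrt_odd s hs.2]

/-- **P10a.** the total identity in terms of `wsum` -/
theorem total (h2 : (2 : O) ∈ IsLocalRing.maximalIdeal O) (e : MonoidAlgebra O G)
    (_ee : e * e = e) (_ec : ∀ a, a * e = e * a) (_S : SimpleQuot (toK O G e))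
    (j : MonoidAlgebra O G) (hj : IsPrimitiveIdem j) (_hje : j * e = j) :
    (∑ g : G, pim O j (g * g)) / (Nat.card G : ℂ) =
      wsum O (fun v : G => if v * v = 1 then 1 else 0) j := total_idem h2 j hj.2.1

end Pool.Agent.Helper28.NO
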