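import Pool.Agent.Helper32.NO.Defs

/-!
# The weighted sums in the quotient by a central `2`-subgroup
-/

set_option autoImplicit false
open scoped BigOperators MonoidAlgebra
open Classical

namespace Pool.Agent.Helper28.NO

open Pool.Agent.Helper36.NB Pool.Agent.Helper44.S3 Pool.Agent.Helper32.ND
open Pool.Agent.Helper32.NO

variable {O : ValuationSubring ℂ} {G : Type} [Group G] [Fintype G]

/-- A class function is integrated over an idempotent by the elements of odd order. -/
theorem sum_odd (h2 : (2 : O) ∈ IsLocalRing.maximalIdeal O) (j : MonoidAlgebra O G)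
    (hj : j * j = j) (F : G → ℂ) (hF : ∀ g s, F (g * s * g⁻¹) = F s) :
    ∑ s : G, (j.coeff s : ℂ) * F s =
      ∑ s ∈ Finset.univ.filter (fun s : G => Odd (orderOf s)), (j.coeff s : ℂ) * F s := by
  rw [← Finset.sum_filter_add_sum_filter_not Finset.univ (fun s : G => Odd (orderOf s))
    (fun s => (j.coeff s : ℂ) * F s)]
  suffices h : ∑ s ∈ Finset.univ.filter (fun s : G => ¬ Odd (orderOf s)),
      (j.coeff s : ℂ) * F s = 0 by rw [h, add_zero]
  set E : Finset G := Finset.univ.filter (fun s : G => ¬ Odd (orderOf s)) with hE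
  have h1 : ∀ g : G, ∑ s ∈ E, (j.coeff (g⁻¹ * s * g) : ℂ) * F s =
      ∑ s ∈ E, (j.coeff s : ℂ) * F s := by
    intro g
    refine Finset.sum_bij (fun s _ => g⁻¹ * s * g) ?_ ?_ ?_ ?_
    · intro s hs
      rw [hE, Finset.mem_filter] at hs ⊢
      refine ⟨Finset.mem_univ _, ?_⟩
      have h := (MulAut.conj g⁻¹).orderOf_eq s
      rw [MulAut.conj_apply, inv_inv] at h
      rw [h]
      exact hs.2
    · intro s _ s' _ h
      exact mul_left_cancel (mul_right_cancel h)
    · intro s hs
      refine ⟨g * s * g⁻¹, ?_, by group⟩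
      rw [hE, Finset.mem_filter] at hs ⊢
      refine ⟨Finset.mem_univ _, ?_⟩
      have h := (MulAut.conj g).orderOf_eq s
      rw [MulAut.conj_apply] at h
      rw [h]
      exact hs.2
    · intro s _
      congr 1
      have h := hF g (g⁻¹ * s * g)
      rw [← h]
      congr 1
      group
  have h3 : ∑ g : G, ∑ s ∈ E, (j.coeff (g⁻¹ * s * g) : ℂ) * F s = 0 := by
    rw [Finset.sum_comm]
    refine Finset.sum_eq_zero fun s hs => ?_
    rw [← Finset.sum_mul]
    have h4 := proj_vanish O h2 j hj s (by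
      rw [hE, Finset.mem_filter, Nat.not_odd_iff_even] at hs
      exact hs.2)
    have h5 : ∑ g : G, (j.coeff (g⁻¹ * s * g) : ℂ) = 0 := by
      have h6 : ((∑ g : G, j.coeff (g⁻¹ * s * g) : O) : ℂ) = 0 := by rw [h4]; rfl
      push_cast at h6
      exact h6
    rw [h5, zero_mul]
  rw [Finset.sum_congr rfl fun g _ => h1 g, Finset.sum_const, Finset.card_univ,
    nsmul_eq_mul] at h3
  rcases mul_eq_zero.1 h3 with h4 | h4
  · exact absurd h4 (Nat.cast_ne_zero.2 Fintype.card_ne_zero)
  · exact h4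

/-- The weighted number of the `v` related to `s`. -/
noncomputable def wP (w : G → ℕ) (P : G → G → Prop) (s : G) : ℕ :=
  ∑ v : G, if P v s then w v else 0

theorem wP_class (w : G → ℕ) (hw : ClassFun w) (P : G → G → Prop)
    (hP : ∀ g v s, P (g * v * g⁻¹) (g * s * g⁻¹) ↔ P v s) (g s : G) :
    wP w P (g * s * g⁻¹) = wP w P s := by
  unfold wP
  symm
  refine Fintype.sum_bijective (fun v => g * v * g⁻¹) (MulAut.conj g).bijective _ _ fun v => ?_
  rw [hw g v]
  exact if_congr (hP g v s).symm rfl rfl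

omit [Group G] in
theorem wP_congr (w : G → ℕ) (P P' : G → G → Prop) (s : G) (h : ∀ v, P v s ↔ P' v s) :
    wP w P s = wP w P' s := by
  unfold wP
  refine Finset.sum_congr rfl fun v _ => ?_
  by_cases hv : P v s
  · rw [if_pos hv, if_pos ((h v).1 hv)]
  · rw [if_neg hv, if_neg (fun hv' => hv ((h v).2 hv'))]

theorem wsum_push (Z : Subgroup G) [Z.Normal] [Fintype (G ⧸ Z)] (j : MonoidAlgebra O G)
    (w : G → ℕ) :
    wsum O (push Z w) (pr O Z j) =
      ∑ s : G, (j.coeff s : ℂ) *
        (wP w (fun v s => (v : G ⧸ Z) * (s : G ⧸ Z) = (s : G ⧸ Z) * (v : G ⧸ Z)) s : ℂ) := by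
  have h1 : ∀ s : G, wc (push Z w) (s : G ⧸ Z) =
      wP w (fun v s => (v : G ⧸ Z) * (s : G ⧸ Z) = (s : G ⧸ Z) * (v : G ⧸ Z)) s := by
    intro s
    unfold wc wP push
    trans ∑ v : G ⧸ Z, ∑ g : G, if (g : G ⧸ Z) = v then
      (if (g : G ⧸ Z) * (s : G ⧸ Z) = (s : G ⧸ Z) * (g : G ⧸ Z) then w g else 0) else 0
    · refine Finset.sum_congr rfl fun v _ => ?_
      by_cases h : v * (s : G ⧸ Z) = (s : G ⧸ Z) * v
      · rw [if_pos h]
        refine Finset.sum_congr rfl fun g _ => ?_
        by_cases hg : (g : G ⧸ Z) = v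
        · rw [if_pos hg, if_pos hg, if_pos (by rw [hg]; exact h)]
        · rw [if_neg hg, if_neg hg]
      · rw [if_neg h]
        symm
        refine Finset.sum_eq_zero fun g _ => ?_
        by_cases hg : (g : G ⧸ Z) = v
        · rw [if_pos hg, if_neg (by rw [hg]; exact h)]
        · rw [if_neg hg]
    · rw [Finset.sum_comm]
      refine Finset.sum_congr rfl fun g _ => ?_
      rw [Finset.sum_ite_eq Finset.univ (g : G ⧸ Z), if_pos (Finset.mem_univ _)]
      by_cases h : (g : G ⧸ Z) * (s : G ⧸ Z) = (s : G ⧸ Z) * (g : G ⧸ Z)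
      · rw [if_pos h, if_pos h]
      · rw [if_neg h, if_neg h]
  unfold wsum
  have h4 : ∀ h : G ⧸ Z, ((pr O Z j).coeff h : ℂ) * (wc (push Z w) h : ℂ) =
      ∑ s : G, if (s : G ⧸ Z) = h then (j.coeff s : ℂ) *
        (wP w (fun v s => (v : G ⧸ Z) * (s : G ⧸ Z) = (s : G ⧸ Z) * (v : G ⧸ Z)) s : ℂ)
        else 0 := by
    intro h
    rw [pr_coeff]
    have h5 : ((∑ g : G, (if (g : G ⧸ Z) = h then j.coeff g else 0) : O) : ℂ) =
        ∑ g : G, (if (g : G ⧸ Z) = h then (j.coeff g : ℂ) else 0) := by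
      push_cast
      refine Finset.sum_congr rfl fun g _ => ?_
      split_ifs
      · rfl
      · rfl
    rw [h5, Finset.sum_mul]
    refine Finset.sum_congr rfl fun g _ => ?_
    by_cases hg : (g : G ⧸ Z) = h
    · rw [if_pos hg, if_pos hg, ← hg, h1]
    · rw [if_neg hg, if_neg hg, zero_mul]
  rw [Finset.sum_congr rfl fun h _ => h4 h, Finset.sum_comm]
  refine Finset.sum_congr rfl fun g _ => ?_
  rw [Finset.sum_ite_eq Finset.univ (g : G ⧸ Z), if_pos (Finset.mem_univ _)]

/-- **P5b.** the weighted sums in the quotient by a central `2`-subgroup -/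
theorem wsum_quot (h2 : (2 : O) ∈ IsLocalRing.maximalIdeal O) (Z : Subgroup G) [Z.Normal]
    [Fintype (G ⧸ Z)] (hZ : ∀ z ∈ Z, ∀ g, z * g = g * z) (hZ2 : IsPGroup 2 Z)
    (j : MonoidAlgebra O G) (hj : j * j = j) (w : G → ℕ) (hw : ClassFun w) :
    wsum O (push Z w) (pr O Z j) = wsum O w j := by
  rw [wsum_push]
  have hR : wsum O w j = ∑ s : G, (j.coeff s : ℂ) * (wP w (fun v s => v * s = s * v) s : ℂ) := rfl
  rw [hR, sum_odd h2 j hj _ (fun g s => by
      rw [wP_class w hw _ (fun g v s => ?_) g s]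
      have h3 : ∀ a b : G, ((g * a * g⁻¹ : G) : G ⧸ Z) * ((g * b * g⁻¹ : G) : G ⧸ Z) =
          (g : G ⧸ Z) * ((a : G ⧸ Z) * (b : G ⧸ Z)) * (g : G ⧸ Z)⁻¹ := by
        intro a b
        simp only [QuotientGroup.mk_mul, QuotientGroup.mk_inv]
        group
      rw [h3, h3]
      constructor
      · intro h
        exact mul_left_cancel (mul_right_cancel h)
      · intro h
        rw [h]),
    sum_odd h2 j hj _ (fun g s => by
      rw [wP_class w hw _ (fun g v s => ?_) g s]
      have h3 : ∀ a b : G, (g * a * g⁻¹) * (g * b * g⁻¹) = g * (a * b) * g⁻¹ := by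
        intro a b
        group
      rw [h3, h3]
      constructor
      · intro h
        exact mul_left_cancel (mul_right_cancel h)
      · intro h
        rw [h])]
  refine Finset.sum_congr rfl fun s hs => ?_
  rw [Finset.mem_filter] at hs
  congr 2
  refine wP_congr w _ _ s fun v => ?_
  constructor
  · intro h
    -- `s v s⁻¹ = z v`
    set z : G := s * v * s⁻¹ * v⁻¹ with hz
    have hzZ : z ∈ Z := by
      rw [← QuotientGroup.eq_one_iff, hz]
      simp only [QuotientGroup.mk_mul, QuotientGroup.mk_inv]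
      rw [← h]
      group
    have hcz : ∀ g, z * g = g * z := hZ z hzZ
    have h1 : s * v = z * v * s := by rw [hz]; group
    have h3 : ∀ m : ℕ, s ^ m * v = z ^ m * v * s ^ m := by
      intro m
      induction m with
      | zero => simp
      | succ m ih =>
        have hcm : Commute (z ^ m) s := (show Commute z s from hcz s).pow_left m
        calc s ^ (m + 1) * v = s * (s ^ m * v) := by rw [pow_succ']; group
          _ = s * (z ^ m * v * s ^ m) := by rw [ih]
          _ = (s * z ^ m) * v * s ^ m := by group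
          _ = (z ^ m * s) * v * s ^ m := by rw [hcm.eq]
          _ = z ^ m * (s * v) * s ^ m := by group
          _ = z ^ m * (z * v * s) * s ^ m := by rw [h1]
          _ = z ^ (m + 1) * v * s ^ (m + 1) := by rw [pow_succ, pow_succ']; group
    have h4 := h3 (orderOf s)
    rw [pow_orderOf_eq_one, one_mul, mul_one] at h4
    have h5 : z ^ orderOf s = 1 := by
      have h6 : z ^ orderOf s * v = 1 * v := by rw [← h4, one_mul]
      exact mul_right_cancel h6
    obtain ⟨k, hk⟩ := hZ2 ⟨z, hzZ⟩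
    have hk' : z ^ 2 ^ k = 1 := by
      have := congrArg Subtype.val hk
      simpa using this
    have h6 : orderOf z ∣ Nat.gcd (orderOf s) (2 ^ k) :=
      Nat.dvd_gcd (orderOf_dvd_of_pow_eq_one h5) (orderOf_dvd_of_pow_eq_one hk')
    have h7 : Nat.gcd (orderOf s) (2 ^ k) = 1 :=
      Nat.Coprime.pow_right _ (Nat.coprime_two_right.2 hs.2)
    rw [h7, Nat.dvd_one, orderOf_eq_one_iff] at h6
    rw [h1, h6, one_mul]
  · intro h
    rw [← QuotientGroup.mk_mul, ← QuotientGroup.mk_mul, h]

end Pool.Agent.Helper28.NO
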